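import Pool.Agent.helper34.AC.Spec2

/-!
# Project ac: (MP_e0bd72_co): PB, the first corollary with the chromatic number
-/

set_option autoImplicit false

namespace Pool.Agent.helper34.AC

/-- real number part: a large `a` is incompatible with `Z > (1 + η) a`. -/
theorem PB_real (η a Z r n : ℝ) (hη : 0 < η) (ha1 : 1 ≤ a) (hηa : 1 ≤ η * a)
    (hbig : 1 + (1 + η) * Real.log (1 / η) < η * Real.log a) (hr : r ≤ a)
    (hn : n ≤ a * Real.log a) (hB : Z * Real.log (Z - r) ≤ n + 1) : Z ≤ (1 + η) * a := by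
  by_contra hcon
  rw [not_le] at hcon
  have ha0 : 0 < a := by linarith
  have h1 : η * a ≤ Z - r := by linarith
  have h2 : 0 ≤ Real.log (η * a) := Real.log_nonneg hηa
  have h3 : Real.log (η * a) ≤ Real.log (Z - r) := Real.log_le_log (by positivity) h1
  have h4 : (1 + η) * a * Real.log (η * a) ≤ Z * Real.log (Z - r) :=
    mul_le_mul hcon.le h3 h2 (by nlinarith)
  have h5 : Real.log (η * a) = Real.log η + Real.log a :=
    Real.log_mul (by positivity) (by positivity)
  have h6 : Real.log (1 / η) = -Real.log η := by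
    rw [one_div, Real.log_inv]
  rw [h5] at h4
  rw [h6] at hbig
  have h7 : a * ((1 + η) * (Real.log η + Real.log a)) ≤ a * (Real.log a + 1) := by
    have : a * (Real.log a + 1) = a * Real.log a + a := by ring
    nlinarith
  have h8 := le_of_mul_le_mul_left h7 ha0
  nlinarith

theorem PB (hPA : PA_stmt) (hCHR : CHR_stmt) (hBUP : BUP_stmt) (hLTW : LTW_stmt) : PB_stmt := by
  intro e he
  by_cases he1 : 1 ≤ e
  · refine ⟨0, fun V _ G r _ hr => ?_⟩
    classical
    obtain ⟨h1, h2⟩ := hCHR V G r hr.le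
    have hZ := hLTW.1 (Fintype.card V) r h2
    obtain ⟨h3, -⟩ := hBUP (Fintype.card V - r) r (Nat.cast_nonneg r)
    have hr0 : (0 : ℝ) ≤ r := Nat.cast_nonneg r
    have hL : 0 ≤ L2 (Fintype.card V) r := by linarith
    have h4 : (1 - e) * L2 (Fintype.card V) r ≤ 0 :=
      mul_nonpos_of_nonpos_of_nonneg (by linarith) hL
    linarith
  · rw [not_le] at he1
    obtain ⟨η, hη⟩ : ∃ η : ℝ, η = e / 2 := ⟨_, rfl⟩
    have hη0 : 0 < η := by rw [hη]; linarith
    obtain ⟨A, hA⟩ : ∃ A : ℝ, A = max (max 2 (1 / η))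
      (Real.exp ((1 + (1 + η) * Real.log (1 / η)) / η)) := ⟨_, rfl⟩
    have hA2 : 2 ≤ A := by rw [hA]; exact (le_max_left _ _).trans (le_max_left _ _)
    have hAη : 1 / η ≤ A := by rw [hA]; exact (le_max_right _ _).trans (le_max_left _ _)
    have hAe : Real.exp ((1 + (1 + η) * Real.log (1 / η)) / η) ≤ A := by
      rw [hA]; exact le_max_right _ _
    refine ⟨⌈A * Real.log A⌉₊ + 1, fun V _ G r hn hr => ?_⟩
    classical
    obtain ⟨h1, h2⟩ := hCHR V G r hr.le
    obtain ⟨p1, -⟩ := hPA V G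
    have hZ := hLTW.1 (Fintype.card V) r h2
    obtain ⟨h3, h4⟩ := hBUP (Fintype.card V - r) r (Nat.cast_nonneg r)
    rw [← hZ] at h3 h4
    have hr0 : (0 : ℝ) ≤ r := Nat.cast_nonneg r
    have ha1 : 1 ≤ avg G + 1 := by linarith
    have haA : A < avg G + 1 := by
      by_contra hcon
      rw [not_lt] at hcon
      have h5 : (avg G + 1) * Real.log (avg G + 1) ≤ A * Real.log A :=
        mul_le_mul hcon (Real.log_le_log (by linarith) hcon) (Real.log_nonneg ha1) (by linarith)
      have h6 : A * Real.log A ≤ ⌈A * Real.log A⌉₊ := Nat.le_ceil _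
      have h7 : ((⌈A * Real.log A⌉₊ + 1 : ℕ) : ℝ) ≤ (Fintype.card V : ℝ) := by exact_mod_cast hn
      push_cast at h7
      linarith
    have h5 : L2 (Fintype.card V) r + 1 ≤ (1 + η) * (avg G + 1) := by
      refine PB_real η (avg G + 1) (L2 (Fintype.card V) r + 1) r (Fintype.card V) hη0 ha1 ?_ ?_
        (by linarith) p1 (h4.trans ?_)
      · have h6 : 1 / η ≤ avg G + 1 := by linarith
        rw [div_le_iff₀ hη0] at h6
        linarith
      · have h6 : Real.exp ((1 + (1 + η) * Real.log (1 / η)) / η) < avg G + 1 := by linarith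
        have h7 := (Real.lt_log_iff_exp_lt (by linarith)).2 h6
        rw [div_lt_iff₀ hη0] at h7
        linarith
      · have h6 : ((Fintype.card V - r : ℕ) : ℝ) ≤ (Fintype.card V : ℝ) := by
          exact_mod_cast Nat.sub_le _ _
        linarith
    have h6 : L2 (Fintype.card V) r ≤ (1 + e) * avg G := by
      have h7 : 1 ≤ avg G := by linarith
      rw [hη] at h5
      nlinarith
    calc (1 - e) * L2 (Fintype.card V) r ≤ (1 - e) * ((1 + e) * avg G) :=
          mul_le_mul_of_nonneg_left h6 (by linarith)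
      _ ≤ avg G := by nlinarith [sq_nonneg e, mul_nonneg (sq_nonneg e) (le_trans hr0 h1)]

end Pool.Agent.helper34.AC
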