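import Pool.Agent.helper34.AC.Spec

/-!
# Project ac: (MP_e0bd72_co): TWO, the blocks of the two ends of an edge
-/

set_option autoImplicit false

namespace Pool.Agent.helper34.AC

theorem TWO_mem {V : Type} (G : SimpleGraph V) (X R S : Finset V) :
    S ∈ st G X R ↔ S ⊆ R ∧ ∀ x ∈ S, (∀ y ∈ S, ¬ G.Adj x y) ∧ ∀ y ∈ X, ¬ G.Adj x y := by
  classical
  unfold st
  rw [Finset.mem_filter, Finset.mem_powerset]

theorem TWO (hRCN : RCN_stmt) (hDEC : DEC_stmt) (hFM1 : FM1_stmt) : TWO_stmt := by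
  intro V _ G U v w o hv hw hvw ho hOm
  have hne : v ≠ w := hvw.ne
  have h1 := hDEC V G {w} (U.erase w) v w 1 (Finset.mem_erase.2 ⟨hne, hv⟩)
    (Finset.mem_singleton_self w) hvw.symm
  have hst : st G {v} ((U.erase w).erase v) = st G {v} (U.erase v) := by
    ext S
    rw [TWO_mem, TWO_mem]
    constructor
    · rintro ⟨h2, h3⟩
      refine ⟨fun x hx => ?_, h3⟩
      have h4 := h2 hx
      rw [Finset.mem_erase, Finset.mem_erase] at h4
      exact Finset.mem_erase.2 ⟨h4.1, h4.2.2⟩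
    · rintro ⟨h2, h3⟩
      refine ⟨fun x hx => ?_, h3⟩
      have h4 := Finset.mem_erase.1 (h2 hx)
      rw [Finset.mem_erase, Finset.mem_erase]
      refine ⟨h4.1, ?_, h4.2⟩
      intro hxw
      rw [hxw] at hx
      exact (h3 w hx).2 v (Finset.mem_singleton_self v) hvw.symm
  rw [h1, hst]
  refine Finset.sum_le_sum fun Q hQ => ?_
  have hQ' := hQ
  rw [← hst, TWO_mem] at hQ'
  obtain ⟨hQs, -⟩ := hQ'
  have hwQ : w ∉ Q := fun h => by
    have h4 := hQs h
    rw [Finset.mem_erase, Finset.mem_erase] at h4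
    exact h4.2.1 rfl
  have h2 := hFM1 V G {w} ((U.erase w).erase v \ Q) o ho (fun U' hU' => hOm U' (hU'.trans
    (Finset.sdiff_subset.trans (Finset.erase_subset _ _))))
  have hc : ((U.erase w).erase v \ Q).card = U.card - 2 - Q.card := by
    rw [Finset.card_sdiff_of_subset hQs, Finset.card_erase_of_mem
      (Finset.mem_erase.2 ⟨hne, hv⟩), Finset.card_erase_of_mem hw]
    omega
  have hM : Mk G {w} ((U.erase w).erase v \ Q) 0 = N G (U.erase v \ Q) := by
    have h3 := (hRCN V G (U.erase v \ Q) w (Finset.mem_sdiff.2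
      ⟨Finset.mem_erase.2 ⟨hne.symm, hw⟩, hwQ⟩)).1
    have h4 : (U.erase v \ Q).erase w = (U.erase w).erase v \ Q := by
      ext x
      simp only [Finset.mem_erase, Finset.mem_sdiff]
      tauto
    rw [h4] at h3
    exact h3.symm
  rw [hc, hM] at h2
  exact h2

end Pool.Agent.helper34.AC
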